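import Pool.Agent.Q231.GPK.Low

/-!
# MP_4c1c99_co, Q1: `(k - 2)² + 4 ≤ N(k) ≤ 290 k³`
-/

set_option autoImplicit false

namespace Pool.Agent.Results.MP_4c1c99_co.CubicThreshold

open Pool.Agent.Q231.GPK

theorem result :
    (∀ k : ℕ, NN k ≤ 290 * k ^ 3 ∧
      ∀ S : Finset (ℝ × ℝ), LC S ≤ k → NN k ≤ S.card → GP S = (ONLINE S + 1) / 2) ∧
    ∀ k : ℕ, 4 ≤ k → (k - 2) ^ 2 + 4 ≤ NN k :=
  ⟨fun k => ⟨NN_le k, NN_spec k⟩, fun _ hk => le_NN' hk⟩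

end Pool.Agent.Results.MP_4c1c99_co.CubicThreshold
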