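import Pool.Agent.Q231.GPK.Pol

/-!
# MP_4c1c99_co, Q2: a polynomial kernel for the partition into subsets in general position

`GP(S) ≤ g` has a polynomial kernel for the parameter `k = LC(S)`, with at most `290 (k + k²)³` points.
-/

set_option autoImplicit false

namespace Pool.Agent.Results.MP_4c1c99_co.PolynomialKernel

open Pool.Agent.NPC Pool.Agent.Q231.GPK

theorem result :
    ∃ (K : List (ℚ × ℚ) × ℕ → List (ℚ × ℚ) × ℕ) (F : List Bool → List Bool),
      PolyTime F ∧ (∀ I : List (ℚ × ℚ) × ℕ, F (bits I) = bits (K I)) ∧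
      ∀ I : List (ℚ × ℚ) × ℕ,
        (GP (pts (K I).1) ≤ (K I).2 ↔ GP (pts I.1) ≤ I.2) ∧
        (K I).1.length ≤ 290 * (LC (pts I.1) + LC (pts I.1) ^ 2) ^ 3 ∧
        (K I).2 ≤ 290 * (LC (pts I.1) + LC (pts I.1) ^ 2) ^ 3 := by
  obtain ⟨F, hF, hFK⟩ := polyTime_K
  refine ⟨K, F, hF, hFK, fun I => ?_⟩
  have h := kernel I.1.dedup (List.nodup_dedup _) I.2
  rw [pts_dedup] at h
  exact h

end Pool.Agent.Results.MP_4c1c99_co.PolynomialKernel
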